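import Pool.Agent.Helper73.Dn.Goals

/-!
# BLK: from a tame set to quiet blocks (MP_70814c_an, project DN)
-/

set_option autoImplicit false

open Pool.Agent.Helper17.Rg
open Pool.Agent.Helper73.Dn

namespace Pool.Agent.Helper88.Dn

open Classical in
theorem cnt_eq (S : Set ℕ) (n : ℕ) :
    Pool.Agent.Helper66.Rig.cnt S n = ((Finset.range n).filter (fun k => k ∈ S)).card := by
  unfold Pool.Agent.Helper66.Rig.cnt
  rw [← Set.ncard_coe_finset]
  congr 1
  ext k
  simp [and_comm]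

theorem cnt_mono (S : Set ℕ) {a b : ℕ} (h : a ≤ b) :
    Pool.Agent.Helper66.Rig.cnt S a ≤ Pool.Agent.Helper66.Rig.cnt S b := by
  classical
  rw [cnt_eq, cnt_eq]
  apply Finset.card_le_card
  intro k hk
  simp only [Finset.mem_filter, Finset.mem_range] at hk ⊢
  exact ⟨by omega, hk.2⟩

theorem cnt_succ_le (S : Set ℕ) (a : ℕ) :
    Pool.Agent.Helper66.Rig.cnt S (a + 1) ≤ Pool.Agent.Helper66.Rig.cnt S a + 1 := by
  classical
  rw [cnt_eq, cnt_eq, Finset.range_add_one, Finset.filter_insert]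
  split_ifs
  · exact Finset.card_insert_le _ _
  · omega

theorem cnt_full (S : Set ℕ) {a b : ℕ} (h : a ≤ b) (hf : ∀ k, a ≤ k → k < b → k ∈ S) :
    Pool.Agent.Helper66.Rig.cnt S a + (b - a) ≤ Pool.Agent.Helper66.Rig.cnt S b := by
  classical
  rw [cnt_eq, cnt_eq]
  have h1 : ((Finset.range a).filter (fun k => k ∈ S)).card + (Finset.Ico a b).card
      = ((Finset.range a).filter (fun k => k ∈ S) ∪ Finset.Ico a b).card := by
    rw [Finset.card_union_of_disjoint]
    rw [Finset.disjoint_left]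
    intro k hk hk'
    simp only [Finset.mem_filter, Finset.mem_range, Finset.mem_Ico] at hk hk'
    omega
  rw [Nat.card_Ico] at h1
  rw [h1]
  apply Finset.card_le_card
  intro k hk
  simp only [Finset.mem_union, Finset.mem_filter, Finset.mem_range, Finset.mem_Ico] at hk ⊢
  rcases hk with hk | hk
  · exact ⟨by omega, hk.2⟩
  · exact ⟨hk.2, hf k hk.1 hk.2⟩

/-- the changes of membership -/
def Ch (S : Set ℕ) (j : ℕ) : Prop := (j ∈ S ∧ j + 1 ∉ S) ∨ (j ∉ S ∧ j + 1 ∈ S)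

theorem step_down (p : ℕ → Prop) (a : ℕ) (ha : p a) : ∀ b : ℕ, a ≤ b → ¬ p b →
    ∃ j, a ≤ j ∧ j < b ∧ p j ∧ ¬ p (j + 1) := by
  intro b hab
  induction b, hab using Nat.le_induction with
  | base => intro h; exact absurd ha h
  | succ b hb ih =>
    intro h
    by_cases hp : p b
    · exact ⟨b, hb, by omega, hp, h⟩
    · obtain ⟨j, h1, h2, h3, h4⟩ := ih hp
      exact ⟨j, h1, by omega, h3, h4⟩

theorem exists_ch (S : Set ℕ) {k k' : ℕ} (hk : k ∈ S) (hk' : k' ∉ S) :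
    ∃ j, Ch S j ∧ min k k' ≤ j ∧ j < max k k' := by
  rcases lt_trichotomy k k' with h | h | h
  · obtain ⟨j, h1, h2, h3, h4⟩ := step_down (fun x => x ∈ S) k hk k' h.le hk'
    exact ⟨j, Or.inl ⟨h3, h4⟩, by omega, by omega⟩
  · subst h; exact absurd hk hk'
  · obtain ⟨j, h1, h2, h3, h4⟩ := step_down (fun x => x ∉ S) k' hk' k h.le (by simpa using hk)
    exact ⟨j, Or.inr ⟨h3, by simpa using h4⟩, by omega, by omega⟩

open Classical in
theorem tel (S : Set ℕ) (N : ℕ) : ∀ M : ℕ, N ≤ M →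
    ((Finset.Ico N M).filter (fun j => j ∉ S ∧ j + 1 ∈ S)).card + (if N ∈ S then 1 else 0) =
      ((Finset.Ico N M).filter (fun j => j ∈ S ∧ j + 1 ∉ S)).card + (if M ∈ S then 1 else 0) := by
  intro M hM
  induction M, hM using Nat.le_induction with
  | base => simp
  | succ M hM ih =>
    have hI : Finset.Ico N (M + 1) = insert M (Finset.Ico N M) := by
      ext x; simp only [Finset.mem_Ico, Finset.mem_insert]; omega
    have hn1 : M ∉ (Finset.Ico N M).filter (fun j => j ∉ S ∧ j + 1 ∈ S) := by simp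
    have hn2 : M ∉ (Finset.Ico N M).filter (fun j => j ∈ S ∧ j + 1 ∉ S) := by simp
    rw [hI, Finset.filter_insert, Finset.filter_insert]
    by_cases h1 : M ∈ S <;> by_cases h2 : M + 1 ∈ S
    · simp only [h1, h2, not_true_eq_false, not_false_eq_true, and_true, and_false, false_and,
        true_and, if_true, if_false] at ih ⊢
      exact ih
    · simp only [h1, h2, not_true_eq_false, not_false_eq_true, and_true, and_false, false_and,
        true_and, if_true, if_false] at ih ⊢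
      rw [Finset.card_insert_of_notMem hn2]
      omega
    · simp only [h1, h2, not_true_eq_false, not_false_eq_true, and_true, and_false, false_and,
        true_and, if_true, if_false] at ih ⊢
      rw [Finset.card_insert_of_notMem hn1]
      omega
    · simp only [h1, h2, not_true_eq_false, not_false_eq_true, and_true, and_false, false_and,
        true_and, if_true, if_false] at ih ⊢
      exact ih

open Classical in
theorem ch_card (S : Set ℕ) (J N : ℕ)
    (hJ : ((Finset.Icc N (2 * N)).filter (fun k => k ∈ S ∧ k + 1 ∉ S)).card ≤ J) :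
    ((Finset.Icc N (2 * N)).filter (fun k => Ch S k)).card ≤ 2 * J + 1 := by
  have hI : Finset.Icc N (2 * N) = Finset.Ico N (2 * N + 1) := by
    ext x; simp only [Finset.mem_Ico, Finset.mem_Icc]; omega
  have h := tel S N (2 * N + 1) (by omega)
  have h2 : (Finset.Icc N (2 * N)).filter (fun k => Ch S k) =
      (Finset.Icc N (2 * N)).filter (fun k => k ∈ S ∧ k + 1 ∉ S) ∪
        (Finset.Icc N (2 * N)).filter (fun k => k ∉ S ∧ k + 1 ∈ S) := by
    rw [← Finset.filter_or]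
    ext x
    simp only [Finset.mem_filter, Ch]
  rw [h2]
  refine (Finset.card_union_le _ _).trans ?_
  rw [← hI] at h
  split_ifs at h <;> omega

open Classical in
/-- weighted sum of the changes -/
theorem ch_sum (S : Set ℕ) (J : ℕ)
    (hJ : ∀ N : ℕ, ((Finset.Icc N (2 * N)).filter (fun k => k ∈ S ∧ k + 1 ∉ S)).card ≤ J) :
    ∀ X : ℕ, ∑ j ∈ (Finset.range (X + 1)).filter (fun k => Ch S k), j ≤ 2 * (2 * J + 1) * X := by
  intro X
  induction X using Nat.strong_induction_on with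
  | _ X ih =>
    rcases Nat.eq_zero_or_pos X with h0 | h0
    · subst h0
      simp [Finset.sum_filter]
    · have ih' := ih (X / 2) (by omega)
      set N := (X + 1) / 2 with hN
      have hsub : (Finset.range (X + 1)).filter (fun k => Ch S k) ⊆
          (Finset.range (X / 2 + 1)).filter (fun k => Ch S k) ∪
            ((Finset.Icc N (2 * N)).filter (fun k => Ch S k)).filter (fun k => k ≤ X) := by
        intro k hk
        simp only [Finset.mem_union, Finset.mem_filter, Finset.mem_range, Finset.mem_Icc] at hk ⊢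
        rcases le_or_gt k (X / 2) with h | h
        · left; exact ⟨by omega, hk.2⟩
        · right; exact ⟨⟨⟨by omega, by omega⟩, hk.2⟩, by omega⟩
      have h1 : ∑ j ∈ (Finset.range (X + 1)).filter (fun k => Ch S k), j ≤
          ∑ j ∈ (Finset.range (X / 2 + 1)).filter (fun k => Ch S k), j +
          ∑ j ∈ ((Finset.Icc N (2 * N)).filter (fun k => Ch S k)).filter (fun k => k ≤ X), j := by
        refine (Finset.sum_le_sum_of_subset hsub).trans ?_
        rw [← Finset.sum_union_inter]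
        exact Nat.le_add_right _ _
      have h2 : ∑ j ∈ ((Finset.Icc N (2 * N)).filter (fun k => Ch S k)).filter (fun k => k ≤ X), j
          ≤ (2 * J + 1) * X := by
        refine (Finset.sum_le_card_nsmul _ _ X ?_).trans ?_
        · intro k hk
          exact (Finset.mem_filter.mp hk).2
        · rw [smul_eq_mul]
          apply Nat.mul_le_mul_right
          exact (Finset.card_filter_le _ _).trans (ch_card S J N (hJ N))
      have h3 : 2 * (2 * J + 1) * (X / 2) ≤ (2 * J + 1) * X := by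
        calc 2 * (2 * J + 1) * (X / 2) = (2 * J + 1) * (2 * (X / 2)) := by ring
          _ ≤ (2 * J + 1) * X := Nat.mul_le_mul_left _ (by omega)
      calc _ ≤ _ := h1
        _ ≤ 2 * (2 * J + 1) * (X / 2) + (2 * J + 1) * X := Nat.add_le_add ih' h2
        _ ≤ (2 * J + 1) * X + (2 * J + 1) * X := Nat.add_le_add_right h3 _
        _ = 2 * (2 * J + 1) * X := by ring

/-- the quiet blocks in base with logarithm `L` -/
def PP (S : Set ℕ) (ρ L : ℝ) : Set ℕ :=
  {i | ∃ k ∈ S, ρ ^ i ≤ ρ * (k * L) ∧ (k : ℝ) * L < ρ ^ (i + 1)}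

/-- full blocks -/
def Full (S : Set ℕ) (ρ L : ℝ) (i : ℕ) : Prop :=
  ∀ k : ℕ, ρ ^ i ≤ k * L → (k : ℝ) * L < ρ ^ (i + 1) → k ∈ S

open Classical in
theorem full_sum (S : Set ℕ) (ρ L : ℝ) (hρ : 1 < ρ) (hL : 0 < L) : ∀ n : ℕ,
    ∑ i ∈ (Finset.range n).filter (fun i => Full S ρ L i), (ρ ^ (i + 1) - ρ ^ i) ≤
      L * (Pool.Agent.Helper66.Rig.cnt S ⌈ρ ^ n / L⌉₊ : ℝ) + n * L := by
  intro n
  induction n with
  | zero => simp; positivity
  | succ n ih =>
    have hmono : ⌈ρ ^ n / L⌉₊ ≤ ⌈ρ ^ (n + 1) / L⌉₊ := by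
      apply Nat.ceil_mono
      apply div_le_div_of_nonneg_right _ hL.le
      exact pow_le_pow_right₀ hρ.le (by omega)
    rw [Finset.range_add_one, Finset.filter_insert]
    push_cast
    by_cases hf : Full S ρ L n
    · rw [if_pos hf, Finset.sum_insert (by simp)]
      have h1 : Pool.Agent.Helper66.Rig.cnt S ⌈ρ ^ n / L⌉₊ + (⌈ρ ^ (n + 1) / L⌉₊ - ⌈ρ ^ n / L⌉₊) ≤
          Pool.Agent.Helper66.Rig.cnt S ⌈ρ ^ (n + 1) / L⌉₊ := by
        apply cnt_full S hmono
        intro k hk1 hk2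
        apply hf k
        · rw [Nat.ceil_le, div_le_iff₀ hL] at hk1
          exact hk1
        · rw [Nat.lt_ceil, lt_div_iff₀ hL] at hk2
          exact hk2
      have h2 : (Pool.Agent.Helper66.Rig.cnt S ⌈ρ ^ n / L⌉₊ : ℝ) +
          ((⌈ρ ^ (n + 1) / L⌉₊ : ℝ) - (⌈ρ ^ n / L⌉₊ : ℝ)) ≤
          (Pool.Agent.Helper66.Rig.cnt S ⌈ρ ^ (n + 1) / L⌉₊ : ℝ) := by
        have := (Nat.cast_le (α := ℝ)).mpr h1
        push_cast [Nat.cast_sub hmono] at this
        exact this
      have h3 : ρ ^ (n + 1) / L ≤ (⌈ρ ^ (n + 1) / L⌉₊ : ℝ) := Nat.le_ceil _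
      have h4 : (⌈ρ ^ n / L⌉₊ : ℝ) < ρ ^ n / L + 1 := Nat.ceil_lt_add_one (by positivity)
      have h5 : (ρ ^ (n + 1) - ρ ^ n) / L - 1 ≤ (⌈ρ ^ (n + 1) / L⌉₊ : ℝ) - (⌈ρ ^ n / L⌉₊ : ℝ) := by
        rw [sub_div]; linarith
      have h6 : ρ ^ (n + 1) - ρ ^ n ≤
          L * ((⌈ρ ^ (n + 1) / L⌉₊ : ℝ) - (⌈ρ ^ n / L⌉₊ : ℝ)) + L := by
        have := mul_le_mul_of_nonneg_left h5 hL.le
        rw [mul_sub, mul_div_cancel₀ _ hL.ne'] at this
        linarith
      have h7 := mul_le_mul_of_nonneg_left h2 hL.le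
      rw [mul_add] at h7
      linarith
    · rw [if_neg hf]
      have h1 : (Pool.Agent.Helper66.Rig.cnt S ⌈ρ ^ n / L⌉₊ : ℝ) ≤
          (Pool.Agent.Helper66.Rig.cnt S ⌈ρ ^ (n + 1) / L⌉₊ : ℝ) := by
        exact_mod_cast cnt_mono S hmono
      have h7 := mul_le_mul_of_nonneg_left h1 hL.le
      linarith

theorem card_two (ρ x : ℝ) (hρ : 1 < ρ) (s : Finset ℕ)
    (hs : ∀ i ∈ s, ρ ^ i ≤ ρ * x ∧ x < ρ ^ (i + 1)) : s.card ≤ 2 := by
  rcases s.eq_empty_or_nonempty with h | h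
  · simp [h]
  · have hsub : s ⊆ Finset.Icc (s.min' h) (s.min' h + 1) := by
      intro i hi
      rw [Finset.mem_Icc]
      refine ⟨Finset.min'_le _ _ hi, ?_⟩
      by_contra hc
      push Not at hc
      have h1 := (hs i hi).1
      have h2 := (hs _ (Finset.min'_mem s h)).2
      have h3 : ρ ^ (s.min' h + 1 + 1) ≤ ρ ^ i := pow_le_pow_right₀ hρ.le (by omega)
      have h4 : ρ * x < ρ * ρ ^ (s.min' h + 1) := mul_lt_mul_of_pos_left h2 (by linarith)
      rw [pow_succ' ρ (s.min' h + 1)] at h3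
      linarith
    have := Finset.card_le_card hsub
    rw [Nat.card_Icc] at this
    omega

open Classical in
theorem nonfull_sum (S : Set ℕ) (ρ L : ℝ) (hρ : 1 < ρ) (hL : 0 < L) (J : ℕ)
    (hJ : ∀ N : ℕ, ((Finset.Icc N (2 * N)).filter (fun k => k ∈ S ∧ k + 1 ∉ S)).card ≤ J)
    (n : ℕ) :
    ∑ i ∈ (Finset.range n).filter (fun i => i ∈ PP S ρ L ∧ ¬ Full S ρ L i),
      (ρ ^ (i + 1) - ρ ^ i) ≤ 4 * ρ * (ρ - 1) * (2 * J + 1) * ρ ^ n := by
  set X := ⌊ρ ^ n / L⌋₊ with hX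
  set C := (Finset.range (X + 1)).filter (fun k => Ch S k) with hC
  set NF := (Finset.range n).filter (fun i => i ∈ PP S ρ L ∧ ¬ Full S ρ L i) with hNF
  have hkey : ∀ i ∈ NF, ∃ j ∈ C, ρ ^ i ≤ ρ * (j * L) ∧ (j : ℝ) * L < ρ ^ (i + 1) := by
    intro i hi
    rw [hNF, Finset.mem_filter, Finset.mem_range] at hi
    obtain ⟨hin, ⟨k, hkS, hk1, hk2⟩, hnf⟩ := hi
    unfold Full at hnf
    push Not at hnf
    obtain ⟨k', hk1', hk2', hkS'⟩ := hnf
    obtain ⟨j, hj, hj1, hj2⟩ := exists_ch S hkS hkS'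
    have hk1'' : ρ ^ i ≤ ρ * (k' * L) := by
      have h0 : 0 ≤ (k' : ℝ) * L := by positivity
      nlinarith
    have hjl : ρ ^ i ≤ ρ * (j * L) := by
      rcases min_choice k k' with h | h
      · rw [h] at hj1
        have : (k : ℝ) ≤ j := by exact_mod_cast hj1
        have := mul_le_mul_of_nonneg_left (mul_le_mul_of_nonneg_right this hL.le)
          (by linarith : (0 : ℝ) ≤ ρ)
        linarith
      · rw [h] at hj1
        have : (k' : ℝ) ≤ j := by exact_mod_cast hj1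
        have := mul_le_mul_of_nonneg_left (mul_le_mul_of_nonneg_right this hL.le)
          (by linarith : (0 : ℝ) ≤ ρ)
        linarith
    have hju : (j : ℝ) * L < ρ ^ (i + 1) := by
      rcases max_choice k k' with h | h
      · rw [h] at hj2
        have : (j : ℝ) ≤ k := by exact_mod_cast hj2.le
        have := mul_le_mul_of_nonneg_right this hL.le
        linarith
      · rw [h] at hj2
        have : (j : ℝ) ≤ k' := by exact_mod_cast hj2.le
        have := mul_le_mul_of_nonneg_right this hL.le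
        linarith
    refine ⟨j, ?_, hjl, hju⟩
    rw [hC, Finset.mem_filter, Finset.mem_range]
    refine ⟨?_, hj⟩
    have h1 : ρ ^ (i + 1) ≤ ρ ^ n := pow_le_pow_right₀ hρ.le (by omega)
    have h2 : (j : ℝ) ≤ ρ ^ n / L := by
      rw [le_div_iff₀ hL]; linarith
    have := Nat.le_floor h2
    omega
  have hρ0 : (0 : ℝ) < ρ := by linarith
  have hstep1 : ∑ i ∈ NF, ρ ^ i ≤
      ∑ i ∈ NF, ∑ j ∈ C, (if ρ ^ i ≤ ρ * (j * L) ∧ (j : ℝ) * L < ρ ^ (i + 1) then ρ * (j * L)
        else 0) := by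
    apply Finset.sum_le_sum
    intro i hi
    obtain ⟨j, hj, hj1, hj2⟩ := hkey i hi
    have h := Finset.single_le_sum (f := fun j : ℕ =>
      (if ρ ^ i ≤ ρ * (j * L) ∧ (j : ℝ) * L < ρ ^ (i + 1) then ρ * (j * L) else 0))
      (s := C) (fun x _ => by
        split_ifs
        · positivity
        · exact le_refl _) hj
    rw [if_pos ⟨hj1, hj2⟩] at h
    exact hj1.trans h
  have hstep2 : ∑ i ∈ NF, ∑ j ∈ C, (if ρ ^ i ≤ ρ * (j * L) ∧ (j : ℝ) * L < ρ ^ (i + 1) then
      ρ * (j * L) else 0) ≤ ∑ j ∈ C, 2 * (ρ * ((j : ℝ) * L)) := by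
    rw [Finset.sum_comm]
    apply Finset.sum_le_sum
    intro j hj
    rw [← Finset.sum_filter, Finset.sum_const, nsmul_eq_mul]
    apply mul_le_mul_of_nonneg_right _ (by positivity)
    have := card_two ρ ((j : ℝ) * L) hρ
      (NF.filter (fun i => ρ ^ i ≤ ρ * (j * L) ∧ (j : ℝ) * L < ρ ^ (i + 1)))
      (fun i hi => (Finset.mem_filter.mp hi).2)
    exact_mod_cast this
  have hstep3 : ∑ j ∈ C, 2 * (ρ * ((j : ℝ) * L)) = 2 * ρ * L * ((∑ j ∈ C, j : ℕ) : ℝ) := by
    push_cast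
    rw [Finset.mul_sum]
    apply Finset.sum_congr rfl
    intro j _
    ring
  have hs := ch_sum S J hJ X
  have hs' : ((∑ j ∈ C, j : ℕ) : ℝ) ≤ 2 * (2 * J + 1) * X := by exact_mod_cast hs
  have hXL : L * (X : ℝ) ≤ ρ ^ n := by
    have : (X : ℝ) ≤ ρ ^ n / L := Nat.floor_le (by positivity)
    rw [le_div_iff₀ hL] at this
    linarith
  have hsum : ∑ i ∈ NF, ρ ^ i ≤ 4 * ρ * (2 * J + 1) * ρ ^ n := by
    calc ∑ i ∈ NF, ρ ^ i ≤ 2 * ρ * L * ((∑ j ∈ C, j : ℕ) : ℝ) := by
          rw [← hstep3]; exact hstep1.trans hstep2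
      _ ≤ 2 * ρ * L * (2 * (2 * J + 1) * X) := by
          apply mul_le_mul_of_nonneg_left hs' (by positivity)
      _ = 4 * ρ * (2 * J + 1) * (L * X) := by ring
      _ ≤ 4 * ρ * (2 * J + 1) * ρ ^ n := by
          apply mul_le_mul_of_nonneg_left hXL (by positivity)
  calc ∑ i ∈ NF, (ρ ^ (i + 1) - ρ ^ i) = (ρ - 1) * ∑ i ∈ NF, ρ ^ i := by
        rw [Finset.mul_sum]; apply Finset.sum_congr rfl; intro i _; rw [pow_succ]; ring
    _ ≤ (ρ - 1) * (4 * ρ * (2 * J + 1) * ρ ^ n) := by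
        apply mul_le_mul_of_nonneg_left hsum (by linarith)
    _ = _ := by ring

open Classical in
theorem base_sum (S : Set ℕ) (ρ L : ℝ) (hρ : 1 < ρ) (hL : 0 < L) (J : ℕ)
    (hJ : ∀ N : ℕ, ((Finset.Icc N (2 * N)).filter (fun k => k ∈ S ∧ k + 1 ∉ S)).card ≤ J)
    (n : ℕ) :
    ∑ i ∈ (Finset.range n).filter (fun i => i ∈ PP S ρ L), (ρ ^ (i + 1) - ρ ^ i) ≤
      L * (Pool.Agent.Helper66.Rig.cnt S ⌈ρ ^ n / L⌉₊ : ℝ) + n * L +
        4 * ρ * (ρ - 1) * (2 * J + 1) * ρ ^ n := by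
  have hpos : ∀ i : ℕ, 0 ≤ ρ ^ (i + 1) - ρ ^ i := by
    intro i
    have : ρ ^ i ≤ ρ ^ (i + 1) := pow_le_pow_right₀ hρ.le (by omega)
    linarith
  have hsub : (Finset.range n).filter (fun i => i ∈ PP S ρ L) ⊆
      (Finset.range n).filter (fun i => Full S ρ L i) ∪
        (Finset.range n).filter (fun i => i ∈ PP S ρ L ∧ ¬ Full S ρ L i) := by
    intro i hi
    simp only [Finset.mem_union, Finset.mem_filter] at hi ⊢
    by_cases h : Full S ρ L i
    · left; exact ⟨hi.1, h⟩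
    · right; exact ⟨hi.1, hi.2, h⟩
  have h1 : ∑ i ∈ (Finset.range n).filter (fun i => i ∈ PP S ρ L), (ρ ^ (i + 1) - ρ ^ i) ≤
      ∑ i ∈ (Finset.range n).filter (fun i => Full S ρ L i), (ρ ^ (i + 1) - ρ ^ i) +
      ∑ i ∈ (Finset.range n).filter (fun i => i ∈ PP S ρ L ∧ ¬ Full S ρ L i),
        (ρ ^ (i + 1) - ρ ^ i) := by
    refine (Finset.sum_le_sum_of_subset_of_nonneg hsub (fun i _ _ => hpos i)).trans ?_
    rw [← Finset.sum_union_inter]
    have : 0 ≤ ∑ i ∈ (Finset.range n).filter (fun i => Full S ρ L i) ∩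
        (Finset.range n).filter (fun i => i ∈ PP S ρ L ∧ ¬ Full S ρ L i),
        (ρ ^ (i + 1) - ρ ^ i) := Finset.sum_nonneg (fun i _ => hpos i)
    linarith
  have h2 := full_sum S ρ L hρ hL n
  have h3 := nonfull_sum S ρ L hρ hL J hJ n
  linarith

theorem growth (ρ : ℝ) (hρ : 1 < ρ) (a b c : ℝ) (hc : 0 < c) :
    ∃ n1 : ℕ, ∀ n : ℕ, n1 ≤ n → a + b * n ≤ c * ρ ^ n := by
  have h1 : Filter.Tendsto (fun n : ℕ => ((n : ℝ) ^ 1 / ρ ^ n)) Filter.atTop (nhds 0) :=
    tendsto_pow_const_div_const_pow_of_one_lt 1 hρ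
  have h0 : Filter.Tendsto (fun n : ℕ => ((n : ℝ) ^ 0 / ρ ^ n)) Filter.atTop (nhds 0) :=
    tendsto_pow_const_div_const_pow_of_one_lt 0 hρ
  have h2 : Filter.Tendsto (fun n : ℕ => a * ((n : ℝ) ^ 0 / ρ ^ n) + b * ((n : ℝ) ^ 1 / ρ ^ n))
      Filter.atTop (nhds (a * 0 + b * 0)) := (h0.const_mul a).add (h1.const_mul b)
  rw [mul_zero, mul_zero, add_zero] at h2
  have h3 := (h2.eventually (gt_mem_nhds hc))
  rw [Filter.eventually_atTop] at h3
  obtain ⟨n1, hn1⟩ := h3
  refine ⟨n1, fun n hn => ?_⟩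
  have h4 := hn1 n hn
  have hp : 0 < ρ ^ n := by positivity
  have h5 : a * ((n : ℝ) ^ 0 / ρ ^ n) + b * ((n : ℝ) ^ 1 / ρ ^ n) = (a + b * n) / ρ ^ n := by
    field_simp
  rw [h5, div_lt_iff₀ hp] at h4
  exact h4.le

theorem blk : Blk := by
  classical
  intro S hT δ0 n0 hδ0 hbud0
  obtain ⟨J, hJ⟩ := hT
  -- normalise delta
  set δ := min δ0 1 with hδdef
  have hδ : 0 < δ := lt_min hδ0 one_pos
  have hδ1 : δ ≤ 1 := min_le_right _ _
  have hlog3 : 0 < Real.log 3 := Real.log_pos (by norm_num)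
  have hlog2 : 0 < Real.log 2 := Real.log_pos (by norm_num)
  have hbud : ∀ n, n0 ≤ n → budget S n ≤ (1 - δ) * (n * Real.log 3) := by
    intro n hn
    refine (hbud0 n hn).trans ?_
    apply mul_le_mul_of_nonneg_right _ (by positivity)
    have : δ ≤ δ0 := min_le_left _ _
    linarith
  set η : ℝ := δ / (32 * (2 * J + 1)) with hη
  have hηpos : 0 < η := by positivity
  have hJ1 : (1 : ℝ) ≤ 2 * J + 1 := by
    have : (0 : ℝ) ≤ J := Nat.cast_nonneg J
    linarith
  have hη1 : η ≤ 1 := by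
    rw [hη, div_le_one (by positivity)]
    nlinarith
  set ρ : ℝ := 1 + η with hρdef
  have hρ : 1 < ρ := by linarith
  have hρ2 : ρ ≤ 2 := by linarith
  have hsmall : 8 * ρ * (ρ - 1) * (2 * J + 1) ≤ δ / 2 := by
    have e1 : ρ - 1 = η := by rw [hρdef]; ring
    rw [e1]
    have e2 : η * (2 * J + 1) = δ / 32 := by
      rw [hη]; field_simp
    calc 8 * ρ * η * (2 * J + 1) = 8 * ρ * (η * (2 * J + 1)) := by ring
      _ = 8 * ρ * (δ / 32) := by rw [e2]
      _ ≤ 8 * 2 * (δ / 32) := by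
          apply mul_le_mul_of_nonneg_right _ (by positivity)
          linarith
      _ = δ / 2 := by ring
  obtain ⟨n1, hn1⟩ := growth ρ hρ (Real.log 3 + Real.log 2) (Real.log 2 + Real.log 3) (δ / 4)
    (by positivity)
  obtain ⟨n2, hn2⟩ := growth ρ hρ (n0 * Real.log 3) 0 1 one_pos
  refine ⟨ρ, fun b => PP S ρ (Real.log (gb b)), δ / 4, max n1 n2, hρ, by positivity, ?_, ?_⟩
  · intro n hn
    have hA := hn1 n (le_trans (le_max_left _ _) hn)
    have hB := hn2 n (le_trans (le_max_right _ _) hn)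
    unfold EE
    rw [Fintype.sum_bool]
    have e3 : (gb true : ℝ) = 3 := by simp [gb]
    have e2 : (gb false : ℝ) = 2 := by simp [gb]
    simp only [e3, e2]
    have b3 := base_sum S ρ (Real.log 3) hρ hlog3 J hJ n
    have b2 := base_sum S ρ (Real.log 2) hρ hlog2 J hJ n
    set u := ⌈ρ ^ n / Real.log 3⌉₊ with hu
    have hu1 : ρ ^ n / Real.log 3 ≤ u := Nat.le_ceil _
    have hu2 : (u : ℝ) < ρ ^ n / Real.log 3 + 1 := Nat.ceil_lt_add_one (by positivity)
    have hu1' : ρ ^ n ≤ u * Real.log 3 := by rwa [div_le_iff₀ hlog3] at hu1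
    have hu2' : u * Real.log 3 ≤ ρ ^ n + Real.log 3 := by
      have := mul_lt_mul_of_pos_right hu2 hlog3
      rw [add_mul, div_mul_cancel₀ _ hlog3.ne', one_mul] at this
      exact this.le
    have hn0u : n0 ≤ u := by
      have h1 : (n0 : ℝ) * Real.log 3 ≤ u * Real.log 3 := by
        have : (n0 : ℝ) * Real.log 3 + 0 * n ≤ 1 * ρ ^ n := hB
        linarith
      have h2 : (n0 : ℝ) ≤ u := le_of_mul_le_mul_right h1 hlog3
      exact_mod_cast h2
    have hbu := hbud u hn0u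
    unfold budget at hbu
    have hfl : ⌈ρ ^ n / Real.log 2⌉₊ ≤ ⌊u * Real.log 3 / Real.log 2⌋₊ + 1 := by
      have h1 : ρ ^ n / Real.log 2 ≤ u * Real.log 3 / Real.log 2 :=
        div_le_div_of_nonneg_right hu1' hlog2.le
      exact (Nat.ceil_mono h1).trans (Nat.ceil_le_floor_add_one _)
    have hc2 : (Pool.Agent.Helper66.Rig.cnt S ⌈ρ ^ n / Real.log 2⌉₊ : ℝ) ≤
        (Pool.Agent.Helper66.Rig.cnt S ⌊u * Real.log 3 / Real.log 2⌋₊ : ℝ) + 1 := by
      have := (cnt_mono S hfl).trans (cnt_succ_le S _)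
      exact_mod_cast this
    have hc2' := mul_le_mul_of_nonneg_left hc2 hlog2.le
    have hb4 : (1 - δ) * (u * Real.log 3) ≤ (1 - δ) * (ρ ^ n + Real.log 3) :=
      mul_le_mul_of_nonneg_left hu2' (by linarith)
    have hp : 0 < ρ ^ n := by positivity
    have hsm := mul_le_mul_of_nonneg_right hsmall hp.le
    have hd3 : δ * Real.log 3 ≥ 0 := by positivity
    nlinarith [hA, hb4, hbu, hc2', b2, b3, hsm, hd3]
  · intro b k i hk h1 h2
    have hpi : (0 : ℝ) < ρ ^ i := by positivity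
    have hkL : 0 < (k : ℝ) * Real.log (gb b) := lt_of_lt_of_le hpi h1
    constructor
    · refine ⟨k, hk, ?_, h2⟩
      nlinarith
    · refine ⟨k, hk, ?_, ?_⟩
      · rw [pow_succ' ρ i]
        exact mul_le_mul_of_nonneg_left h1 (by linarith)
      · exact lt_of_lt_of_le h2 (pow_le_pow_right₀ hρ.le (by omega))

end Pool.Agent.Helper88.Dn
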